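import Pool.Agent.W_448dd_h67.DdH
import Pool.Agent.W_448s8_h76.SaK
import Pool.Agent.W_448s14_h94.SgL

/-!
Families of blockers at the energy of the first pole (MP_448cb3_co, S7, S8, `j = 14`): the natural part
of the window sum and a sum of poles.  helper53.
-/

namespace Pool.Agent.GaussPoset.W7

set_option linter.unusedSectionVars false

open Polynomial Finset

universe u

variable {P : Type u} [Fintype P] [PartialOrder P] [DecidableEq P]

/-- the part with dangerous elements is the sum over the families -/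
theorem DG_fam {i : ℕ} {R : Finset P} {h : P → ℕ} {n : ℕ} (Fam : Finset (Finset P))
    (hlev : ∀ x ∈ R, i < lev x) (hFam : ∀ A ∈ Fam, ∀ z ∈ A, z ∈ bdR R)
    (hn : ∀ z ∈ bdR R, (∀ A ∈ Fam, z ∉ A) → n < cst i h z)
    (hpair : ∀ A ∈ Fam, ∀ z ∈ A, ∀ z' ∈ bdR R, z' ∉ A →
      n < ∑ x, max (ez i h z x) (ez i h z' x))
    (hdis : ∀ A ∈ Fam, ∀ A' ∈ Fam, A ≠ A' → ∀ z ∈ A, z ∉ A') :
    DG i R h n = ∑ A ∈ Fam, ZF i h A n := by
  classical
  unfold DG ZF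
  rw [Finset.sum_comm (s := Fam)]
  refine Finset.sum_congr rfl fun F _ => ?_
  rw [← Finset.sum_biUnion]
  · refine Finset.sum_congr ?_ (fun _ _ => rfl)
    ext e
    simp only [mem_biUnion, mem_filter]
    constructor
    · rintro ⟨h5, h6, z, hz, hd⟩
      rw [mem_piAntidiag] at h5
      have h4 : ∀ x, ez i h z x ≤ e x := ez_le h6 (hlev z (mem_filter.mp hz).1) hd
      have h7 : cst i h z ≤ n := by
        rw [← h5.1]; exact Finset.sum_le_sum fun x _ => h4 x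
      by_cases hz1 : ∃ A ∈ Fam, z ∈ A
      · obtain ⟨A, hA, hzA⟩ := hz1
        exact ⟨A, hA, by rw [mem_piAntidiag]; exact h5, h6, z, hzA, hd⟩
      · push Not at hz1
        have := hn z hz hz1
        omega
    · rintro ⟨A, hA, h5, h6, z, hz, hd⟩
      exact ⟨h5, h6, z, hFam A hA z hz, hd⟩
  · intro A hA A' hA' hne
    simp only [Function.onFun]
    rw [Finset.disjoint_left]
    intro e he he'
    rw [mem_filter, mem_piAntidiag] at he he'
    obtain ⟨z, hz, hd⟩ := he.2.2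
    obtain ⟨z', hz', hd'⟩ := he'.2.2
    have h1 := hFam A hA z hz
    have h1' := hFam A' hA' z' hz'
    have h2 := ez_le he.2.1 (hlev z (mem_filter.mp h1).1) hd
    have h3 := ez_le he'.2.1 (hlev z' (mem_filter.mp h1').1) hd'
    have h4 : ∑ x, max (ez i h z x) (ez i h z' x) ≤ ∑ x, e x :=
      Finset.sum_le_sum fun x _ => max_le (h2 x) (h3 x)
    have h5 := hpair A hA z hz z' h1' (hdis A' hA' A hA (Ne.symm hne) z' hz')
    have h6 : ∑ x, e x = n := he.1.1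
    omega

variable {ι : Type*} [Fintype ι] [DecidableEq ι]

/-- **The energy of the first pole, with families.**  The window sum at `n0` is the one of the natural
part plus the sums of the families. -/
theorem sub_fam_eq {i n0 : ℕ} {R : Finset P}
    (hR : ∀ x y, x ≤ y → y ∈ R → x ∈ R) (hRlev : ∀ x ∈ R, i < lev x)
    (cp : P → ι) (hcp : ∀ x y, x ≤ y → x ∉ R → cp x = cp y) (b : ι → ℕ) (θ : P → ℕ)
    (B : P → Prop) (hBR : ∀ x ∈ R, ¬ B x)
    (H : ∀ k, Dd.CompDataL R cp k i (b k) n0 θ B) (Fam : Finset (Finset P))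
    (hFam : ∀ A ∈ Fam, ∀ z ∈ A, z ∈ bdR R)
    (hn : ∀ z ∈ bdR R, (∀ A ∈ Fam, z ∉ A) → n0 < cst i (hcan R θ) z)
    (hpair : ∀ A ∈ Fam, ∀ z ∈ A, ∀ z' ∈ bdR R, z' ∉ A →
      n0 < ∑ x, max (ez i (hcan R θ) z x) (ez i (hcan R θ) z' x))
    (hdis : ∀ A ∈ Fam, ∀ A' ∈ Fam, A ≠ A' → ∀ z ∈ A, z ∉ A') :
    (1 + X : ℤ[X]) ^ (∑ k, b k) ∣ Z P i n0 - Z {x : P // x ∉ R} i n0 -
      ∑ A ∈ Fam, ZF i (hcan R θ) A n0 := by
  classical
  rw [Z_split i R (hcan R θ) n0, DG_fam Fam hRlev hFam hn hpair hdis, ← ZB_off hR hRlev]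
  have key : (1 + X : ℤ[X]) ^ (∑ k, b k) ∣ ND i R (hcan R θ) n0 - ZB i R 0 0 n0 := by
    refine Dd.ND_sub hRlev ?_ _ n0 ?_
    · intro z hz
      obtain ⟨x, -, -, hx⟩ := hcan_spec (θ := θ) hz
      omega
    · intro g hg0 hg hs
      refine Dd.labelsL hR hRlev cp hcp b θ B hBR H g hg0 ?_ n0 (by omega)
      intro y hy x hx hyx
      have h1 : y ∈ bdR R := mem_filter.mpr ⟨hy, x, hx, hyx⟩
      have h2 := hg y h1
      have h3 := hcan_le (θ := θ) hx hyx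
      omega
  have e1 : ND i R (hcan R θ) n0 + ∑ A ∈ Fam, ZF i (hcan R θ) A n0 - ZB i R 0 0 n0 -
      ∑ A ∈ Fam, ZF i (hcan R θ) A n0 = ND i R (hcan R θ) n0 - ZB i R 0 0 n0 := by ring
  rw [e1]
  exact key

/-- clean families -/
theorem sub_fam {i n0 : ℕ} {R : Finset P}
    (hR : ∀ x y, x ≤ y → y ∈ R → x ∈ R) (hRlev : ∀ x ∈ R, i < lev x)
    (cp : P → ι) (hcp : ∀ x y, x ≤ y → x ∉ R → cp x = cp y) (b : ι → ℕ) (θ : P → ℕ)
    (B : P → Prop) (hBR : ∀ x ∈ R, ¬ B x)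
    (H : ∀ k, Dd.CompDataL R cp k i (b k) n0 θ B) (Fam : Finset (Finset P))
    (hFam : ∀ A ∈ Fam, ∀ z ∈ A, z ∈ bdR R)
    (hn : ∀ z ∈ bdR R, (∀ A ∈ Fam, z ∉ A) → n0 < cst i (hcan R θ) z)
    (hpair : ∀ A ∈ Fam, ∀ z ∈ A, ∀ z' ∈ bdR R, z' ∉ A →
      n0 < ∑ x, max (ez i (hcan R θ) z x) (ez i (hcan R θ) z' x))
    (hdis : ∀ A ∈ Fam, ∀ A' ∈ Fam, A ≠ A' → ∀ z ∈ A, z ∉ A')
    (hF : ∀ A ∈ Fam, (1 + X : ℤ[X]) ^ (∑ k, b k) ∣ ZF i (hcan R θ) A n0) :
    (1 + X : ℤ[X]) ^ (∑ k, b k) ∣ Z P i n0 - Z {x : P // x ∉ R} i n0 := by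
  have h1 := sub_fam_eq hR hRlev cp hcp b θ B hBR H Fam hFam hn hpair hdis
  have h2 := dvd_add h1 (Finset.dvd_sum hF)
  rwa [sub_add_cancel] at h2

open Cl Dd Sg Wd Win in
/-- **No first pole**, the sum of the values is not zero, with clean families. -/
theorem no_first_pole_fam {i n0 : ℕ} (h0 : 1 ≤ n0) (hG : IsGaussian P) {R : Finset P}
    (hR : ∀ x y, x ≤ y → y ∈ R → x ∈ R) (hRlev : ∀ x ∈ R, i < lev x)
    (cp : P → ι) (hcp : ∀ x y, x ≤ y → x ∉ R → cp x = cp y) (b : ι → ℕ) (θ : P → ℕ)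
    (B : P → Prop) (hBR : ∀ x ∈ R, ¬ B x)
    (H : ∀ k, Dd.CompDataL R cp k i (b k) n0 θ B) (hb : ∀ k, 1 ≤ b k)
    (hsum : ∑ k, b k = (lv P i).card) (Fam : Finset (Finset P))
    (hFam : ∀ A ∈ Fam, ∀ z ∈ A, z ∈ bdR R)
    (hn : ∀ z ∈ bdR R, (∀ A ∈ Fam, z ∉ A) → n0 < cst i (hcan R θ) z)
    (hpair : ∀ A ∈ Fam, ∀ z ∈ A, ∀ z' ∈ bdR R, z' ∉ A →
      n0 < ∑ x, max (ez i (hcan R θ) z x) (ez i (hcan R θ) z' x))
    (hdis : ∀ A ∈ Fam, ∀ A' ∈ Fam, A ≠ A' → ∀ z ∈ A, z ∉ A')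
    (hF : ∀ A ∈ Fam, (1 + X : ℤ[X]) ^ (lv P i).card ∣ ZF i (hcan R θ) A n0) (ρ : ι → ℤ)
    (hpl : ∀ k, (ρ k = 0 ∧ ∀ n, (1 + X : ℤ[X]) ^ b k ∣
        Z {x : {x : P // x ∉ R} // cp (x : P) = k} i n) ∨
      ∀ f, (∀ n, exq n f = Z {x : {x : P // x ∉ R} // cp (x : P) = k} i n) →
        Pl n0 (b k) (ρ k) f)
    (hρ : ∑ k, ρ k ≠ 0) : False := by
  classical
  have hne : (univ : Finset ι).Nonempty := by
    by_contra hcon
    rw [Finset.not_nonempty_iff_eq_empty] at hcon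
    rw [hcon, Finset.sum_empty] at hρ
    exact hρ rfl
  have h1 := sub_fam hR hRlev cp hcp b θ B hBR H Fam hFam hn hpair hdis
    (fun A hA => by rw [hsum]; exact hF A hA)
  rw [hsum] at h1
  have h2 := dvd_Z hG i n0
  have h3 : (1 + X : ℤ[X]) ^ (lv P i).card ∣ Z {x : P // x ∉ R} i n0 := by
    have := dvd_sub h2 h1
    rwa [sub_sub_cancel] at this
  have hc : ∀ x y : {x : P // x ∉ R}, x ≤ y → cp (x : P) = cp (y : P) := fun x y hxy =>
    hcp x y hxy x.2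
  choose f hf hf' using fun k => exists_norm {x : {x : P // x ∉ R} // cp (x : P) = k} i
  have hprod := Z_prod (fun x : {x : P // x ∉ R} => cp (x : P)) hc i f hf
  have hR' : ∀ x : {x : P // x ∉ R}, lev x = lev (x : P) :=
    lev_subtype (p := fun x => x ∉ R) (fun x y hxy hx => fun h => hx (hR x y hxy h))
  have hlv : (lv P i).card = (lv {x : P // x ∉ R} i).card := by
    refine (Finset.card_bij (fun (x : {x : P // x ∉ R}) _ => (x : P)) ?_ ?_ ?_).symm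
    · intro x hx
      rw [mem_lv] at hx ⊢
      rw [← hR', hx]
    · intro x _ y _ h
      exact Subtype.ext h
    · intro x hx
      rw [mem_lv] at hx
      have hxR : x ∉ R := fun h => by have := hRlev x h; omega
      exact ⟨⟨x, hxR⟩, by rw [mem_lv, hR']; exact hx, rfl⟩
  have hlv2 := card_lv_prod (fun x : {x : P // x ∉ R} => cp (x : P)) hc i
  have hz0 : ∀ k, exq 0 (f k) =
      X ^ (below {x : {x : P // x ∉ R} // cp (x : P) = k} i) *
        (1 + X) ^ (lv {x : {x : P // x ∉ R} // cp (x : P) = k} i).card := fun k => by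
    rw [hf', Z_zero]
  have hgood : GaussPoset.Good i R B R := ⟨hR, Subset.refl R, hRlev, hBR⟩
  have hle : ∀ k ∈ (univ : Finset ι), b k ≤
      (lv {x : {x : P // x ∉ R} // cp (x : P) = k} i).card := by
    intro k _
    have h4 := (H k).clean R hgood inferInstance 0 (by omega)
    rw [Z_zero] at h4
    exact le_of_pow_dvd h4
  have heq := (Finset.sum_eq_sum_iff_of_le hle).mp (by rw [hsum, hlv, hlv2])
  have hP : Pl n0 (∑ k, b k) (∑ k, ρ k) (∏ k, f k) := by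
    refine Pl.prod h0 univ hne fun k hk => ?_
    rcases hpl k with ⟨h4, h5⟩ | h4
    · rw [h4]
      refine Pl.of_dvd (hb k) (fun n => by rw [hf']; exact h5 n) (m := below
        {x : {x : P // x ∉ R} // cp (x : P) = k} i) ?_
      rw [hz0, heq k hk]
    · exact h4 (f k) (hf' k)
  refine hP.not_dvd hρ ?_
  rw [hsum, ← hprod]
  exact h3

end Pool.Agent.GaussPoset.W7
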