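import Pool.Agent.W_448w7_h94.WiG
import Pool.Agent.W_448w7p_h53.GgA

/-!
Level 14, window 7, energy 31: the boundary of the natural sets without twins
(MP_448cb3_co, S7, `j = 14`).  helper53.
-/

namespace Pool.Agent.GaussPoset.W7

set_option linter.unusedSectionVars false

open Polynomial Finset Fi Cl

universe u

variable {P : Type u} [Fintype P] [PartialOrder P] [DecidableEq P]

section General

variable {ι : Type*} [Fintype ι] [DecidableEq ι]

lemma pow_eq_of {b b' m : ℕ} {v : ℤ[X]} (h : (1 + X : ℤ[X]) ^ b' * v = X ^ m * (1 + X) ^ b)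
    (hv : v.eval (-1) ≠ 0) : b' = b := by
  rcases lt_trichotomy b' b with h1 | h1 | h1
  · exfalso
    obtain ⟨c, rfl⟩ : ∃ c, b = b' + (c + 1) := ⟨b - b' - 1, by omega⟩
    rw [pow_add, mul_left_comm] at h
    have h2 := mul_left_cancel₀ (Dd.one_add_X_pow_ne b') h
    rw [h2, eval_mul, eval_pow, eval_pow, eval_add, eval_one, eval_X, add_neg_cancel,
      zero_pow (Nat.succ_ne_zero c), mul_zero] at hv
    exact hv rfl
  · exact h1
  · exfalso
    obtain ⟨c, rfl⟩ : ∃ c, b' = b + (c + 1) := ⟨b' - b - 1, by omega⟩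
    rw [pow_add, mul_assoc, mul_comm (X ^ m)] at h
    have h2 := mul_left_cancel₀ (Dd.one_add_X_pow_ne b) h
    have h3 := congrArg (fun f : ℤ[X] => f.eval (-1)) h2
    simp only [eval_mul, eval_pow, eval_add, eval_one, eval_X, add_neg_cancel] at h3
    rw [zero_pow (Nat.succ_ne_zero c), zero_mul] at h3
    exact pow_ne_zero m (by norm_num) h3.symm

open Cl Dd Sg Wd Win in
/-- **No first pole**, the sum of the values is not zero, with clean families; the orders up to the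
energy `n0` only. -/
theorem no_first_pole_fam' {i n0 : ℕ} (h0 : 1 ≤ n0) (hG : IsGaussian P) {R : Finset P}
    (hR : ∀ x y, x ≤ y → y ∈ R → x ∈ R) (hRlev : ∀ x ∈ R, i < lev x)
    (cp : P → ι) (hcp : ∀ x y, x ≤ y → x ∉ R → cp x = cp y) (b : ι → ℕ) (θ : P → ℕ)
    (B : P → Prop) (hBR : ∀ x ∈ R, ¬ B x)
    (H : ∀ k, Dd.CompDataL R cp k i (b k) n0 θ B) (hb : ∀ k, 1 ≤ b k)
    (hsum : ∑ k, b k = (lv P i).card) (Fam : Finset (Finset P))
    (hFam : ∀ A ∈ Fam, ∀ z ∈ A, z ∈ bdR R)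
    (hn : ∀ z ∈ bdR R, (∀ A ∈ Fam, z ∉ A) → n0 < cst i (hcan R θ) z)
    (hpair : ∀ A ∈ Fam, ∀ z ∈ A, ∀ z' ∈ bdR R, z' ∉ A →
      n0 < ∑ x, max (ez i (hcan R θ) z x) (ez i (hcan R θ) z' x))
    (hdis : ∀ A ∈ Fam, ∀ A' ∈ Fam, A ≠ A' → ∀ z ∈ A, z ∉ A')
    (hF : ∀ A ∈ Fam, (1 + X : ℤ[X]) ^ (lv P i).card ∣ ZF i (hcan R θ) A n0) (ρ : ι → ℤ)
    (hpl : ∀ k, (ρ k = 0 ∧ ∀ n ≤ n0, (1 + X : ℤ[X]) ^ b k ∣
        Z {x : {x : P // x ∉ R} // cp (x : P) = k} i n) ∨
      ∀ f, (∀ n, exq n f = Z {x : {x : P // x ∉ R} // cp (x : P) = k} i n) →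
        ∃ b', Pl n0 b' (ρ k) f)
    (hρ : ∑ k, ρ k ≠ 0) : False := by
  classical
  have hne : (univ : Finset ι).Nonempty := by
    by_contra hcon
    rw [Finset.not_nonempty_iff_eq_empty] at hcon
    rw [hcon, Finset.sum_empty] at hρ
    exact hρ rfl
  have h1 := sub_fam hR hRlev cp hcp b θ B hBR H Fam hFam hn hpair hdis
    (fun A hA => by rw [hsum]; exact hF A hA)
  rw [hsum] at h1
  have h2 := dvd_Z hG i n0
  have h3 : (1 + X : ℤ[X]) ^ (lv P i).card ∣ Z {x : P // x ∉ R} i n0 := by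
    have := dvd_sub h2 h1
    rwa [sub_sub_cancel] at this
  have hc : ∀ x y : {x : P // x ∉ R}, x ≤ y → cp (x : P) = cp (y : P) := fun x y hxy =>
    hcp x y hxy x.2
  choose f hf hf' using fun k => exists_norm {x : {x : P // x ∉ R} // cp (x : P) = k} i
  have hprod := Z_prod (fun x : {x : P // x ∉ R} => cp (x : P)) hc i f hf
  have hR' : ∀ x : {x : P // x ∉ R}, lev x = lev (x : P) :=
    lev_subtype (p := fun x => x ∉ R) (fun x y hxy hx => fun h => hx (hR x y hxy h))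
  have hlv : (lv P i).card = (lv {x : P // x ∉ R} i).card := by
    refine (Finset.card_bij (fun (x : {x : P // x ∉ R}) _ => (x : P)) ?_ ?_ ?_).symm
    · intro x hx
      rw [mem_lv] at hx ⊢
      rw [← hR', hx]
    · intro x _ y _ h
      exact Subtype.ext h
    · intro x hx
      rw [mem_lv] at hx
      have hxR : x ∉ R := fun h => by have := hRlev x h; omega
      exact ⟨⟨x, hxR⟩, by rw [mem_lv, hR']; exact hx, rfl⟩
  have hlv2 := card_lv_prod (fun x : {x : P // x ∉ R} => cp (x : P)) hc i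
  have hz0 : ∀ k, exq 0 (f k) =
      X ^ (below {x : {x : P // x ∉ R} // cp (x : P) = k} i) *
        (1 + X) ^ (lv {x : {x : P // x ∉ R} // cp (x : P) = k} i).card := fun k => by
    rw [hf', Z_zero]
  have hgood : GaussPoset.Good i R B R := ⟨hR, Subset.refl R, hRlev, hBR⟩
  have hle : ∀ k ∈ (univ : Finset ι), b k ≤
      (lv {x : {x : P // x ∉ R} // cp (x : P) = k} i).card := by
    intro k _
    have h4 := (H k).clean R hgood inferInstance 0 (by omega)
    rw [Z_zero] at h4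
    exact le_of_pow_dvd h4
  have heq := (Finset.sum_eq_sum_iff_of_le hle).mp (by rw [hsum, hlv, hlv2])
  have hP : Pl n0 (∑ k, b k) (∑ k, ρ k) (∏ k, f k) := by
    refine Pl.prod h0 univ hne fun k hk => ?_
    rcases hpl k with ⟨h4, h5⟩ | h4
    · rw [h4]
      refine ⟨fun n hn => ?_, hb k, X ^ (below {x : {x : P // x ∉ R} // cp (x : P) = k} i), 0,
        ?_, ?_, ?_, ?_⟩
      · rw [hf']
        exact h5 n hn.le
      · rw [hz0, heq k hk, mul_comm]
      · rw [eval_pow, eval_X]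
        exact pow_ne_zero _ (by norm_num)
      · rw [mul_zero, sub_zero, hf']
        exact h5 n0 le_rfl
      · rw [eval_zero, zero_mul]
    · obtain ⟨b', h5⟩ := h4 (f k) (hf' k)
      obtain ⟨v, s, hv, hv1, -⟩ := h5.ex
      rw [hz0] at hv
      rw [heq k hk, ← pow_eq_of hv.symm hv1]
      exact h5
  refine hP.not_dvd hρ ?_
  rw [hsum, ← hprod]
  exact h3

end General

variable {r n0 : ℕ} {N : Tops P → Finset P} {b : Tops P → ℕ} {θ : Tops P → P → ℕ}

/-- the sum of a family depends on the labels of the family only -/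
lemma ZF_congr {i : ℕ} {h h' : P → ℕ} {A : Finset P} (hh : ∀ z ∈ A, h z = h' z) (n : ℕ) :
    ZF i h A n = ZF i h' A n := by
  classical
  unfold ZF
  refine Finset.sum_congr rfl fun F _ => ?_
  refine Finset.sum_congr (Finset.filter_congr fun e _ => ?_) fun _ _ => rfl
  refine and_congr_right fun _ => exists_congr fun z => and_congr_right fun hz => ?_
  unfold Dgz
  rw [hh z hz]

/-- the thresholds without twins -/
noncomputable def th1 (θ : Tops P → P → ℕ) : P → ℕ := fun x => θ (topOf x) x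

/-- an element of the boundary without twins -/
lemma bd_cases {z : P} (hz : z ∈ bdR (unnat N)) :
    z ∈ twY (2 * 7) N ∨ (z ∈ bdR (r2 (2 * 7) N) ∧
      h2 (2 * 7) N θ z ≤ hcan (unnat N) (th1 θ) z) := by
  classical
  by_cases hY : z ∈ twY (2 * 7) N
  · exact Or.inl hY
  · right
    have hzR := (mem_filter.mp hz).1
    obtain ⟨x, hx, hzx, hh⟩ := hcan_spec (θ := th1 θ) hz
    have hx2 : x ∉ r2 (2 * 7) N := fun h => hx (mem_sdiff.mp h).1
    have hxY : x ∉ twY (2 * 7) N := fun h => hx (mem_twY.mp h).1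
    refine ⟨mem_filter.mpr ⟨mem_sdiff.mpr ⟨hzR, hY⟩, x, hx2, hzx⟩, ?_⟩
    rw [hh, h2_eq]
    refine (hcan_le (θ := th2 N θ) hx2 hzx).trans ?_
    show th2 N θ x + 1 ≤ _
    unfold th2
    rw [thX_not hxY]
    exact le_rfl

/-- the cost of a pendant -/
lemma ct_pend {i k : ℕ} {z c : P} (h : Pend z c) : ct i k z = min k (lev z - i) + ct i k c := by
  classical
  rw [ct_succ, ct_eq_sum i k c]
  congr 1
  refine Finset.sum_congr rfl fun w _ => ?_
  have h1 : z < w ↔ c ≤ w := by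
    constructor
    · intro hw
      obtain ⟨v, hv, hvw⟩ := Hul.exists_cov hw
      rw [h.2 v hv] at hvw
      exact hvw
    · exact fun hw => h.1.lt.trans_le hw
  by_cases hw : c ≤ w
  · rw [if_pos hw, if_pos (h1.mpr hw)]
  · rw [if_neg hw, if_neg fun h2 => hw (h1.mp h2)]

/-- the numbers for the twins: rectangles -/
lemma tw_numR : ∀ s ∈ Icc 1 7, 32 ≤ ∑ a ∈ range (s + 1),
    rowW false (fun k => min ((s - 7) + (15 - s - 7)) (k - 7)) (15 - s) 15 a := by
  decide +kernel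

/-- the numbers for the twins: stairs -/
lemma tw_numS : ∀ s ∈ Icc 1 7, 32 ≤ ∑ a ∈ range (s + 1),
    rowW true (fun k => min ((s - 2 * (7 / 2)) + (15 - s - 7)) (k - 7)) (15 - s) 15 a := by
  decide +kernel

section Kap

variable {t : P} {Nc : Finset P} {co : P → ℕ × ℕ} {k : ℕ} {x : P}

lemma tw_chart_aux (C : Chart t (fun _ => True) Nc co)
    (hx : x ∈ Nc) (h1 : 1 ≤ (co x).1) (h3 : (co x).1 ≤ (co x).2) (hl : lev x = 15)
    (hk : ((co x).1 - 7) + ((co x).2 - 7) ≤ k) : 32 ≤ ct 7 k x := by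
  have hlx := C.lev x hx
  have h5 := tw_numR (co x).1 (mem_Icc.mpr ⟨h1, by omega⟩)
  have h6 := ct_chart C (shift := false) (by simp) hx 7 (((co x).1 - 7) + (15 - (co x).1 - 7))
  have e1 : (co x).2 = 15 - (co x).1 := by omega
  rw [hl, e1] at h6
  rw [← h6] at h5
  exact h5.trans (ct_mono (i := 7) le_rfl (by omega))

lemma tw_chart (C : Chart t (fun _ => True) Nc co) (hx : x ∈ Nc)
    (h1 : 1 ≤ (co x).1) (h2 : 1 ≤ (co x).2) (hl : lev x = 15)
    (hk : ((co x).1 - 7) + ((co x).2 - 7) ≤ k) : 32 ≤ ct 7 k x := by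
  rcases le_total (co x).1 (co x).2 with h3 | h3
  · exact tw_chart_aux C hx h1 h3 hl hk
  · refine tw_chart_aux C.swap hx ?_ ?_ hl ?_
    · simpa using h2
    · simpa using h3
    · simp only [swp_fst, swp_snd]
      omega

lemma tw_chartS (C : Chart t (fun c => c.1 ≤ c.2) Nc co)
    (hx : x ∈ Nc) (h1 : 1 ≤ (co x).1) (hl : lev x = 15)
    (hk : ((co x).1 - 2 * (7 / 2)) + ((co x).2 - 7) ≤ k) : 32 ≤ ct 7 k x := by
  have hlx := C.lev x hx
  have h3 : (co x).1 ≤ (co x).2 := C.mem x hx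
  have h5 := tw_numS (co x).1 (mem_Icc.mpr ⟨h1, by omega⟩)
  have h6 := ct_chart C (shift := true) (by simp) hx 7
    (((co x).1 - 2 * (7 / 2)) + (15 - (co x).1 - 7))
  have e1 : (co x).2 = 15 - (co x).1 := by omega
  rw [hl, e1] at h6
  rw [← h6] at h5
  exact h5.trans (ct_mono (i := 7) le_rfl (by omega))

end Kap

/-- the natural twins cost at least 32 -/
lemma WL.tw_cost (W : WL r n0 N b θ) {x : P} (hx : x ∈ twY (2 * 7) N) {k : ℕ}
    (hk : θ (topOf (twT N x)) (twT N x) ≤ k) : 32 ≤ ct 7 k (twT N x) := by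
  have h1 := mem_twY.mp hx
  have h3 := twT_spec h1.2.2
  have h5 := W.twSys.lev hx
  have hl : lev (twT N x) = 15 := by rw [h5]; exact h1.2.1
  rcases W.tw_inner hx with ⟨Nc, co, h⟩ | ⟨Nc, co, h⟩
  · refine tw_chart h.rect.chart h.mem h.fst h.snd hl ?_
    rw [← h.th]
    exact hk
  · refine tw_chartS h.stair.chart h.mem h.fst hl ?_
    rw [← h.th]
    exact hk

/-- the label of a twin in the boundary without twins -/
lemma WL.tw_lab (W : WL r n0 N b θ) {z : P} (hz : z ∈ bdR (unnat N))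
    (hY : z ∈ twY (2 * 7) N) : 32 ≤ cst 7 (hcan (unnat N) (th1 θ)) z := by
  classical
  have T := W.twSys
  obtain ⟨x, hx, hzx, hh⟩ := hcan_spec (θ := th1 θ) hz
  obtain ⟨B, hB⟩ := W.compL
  have hcov := (T.cov hY (y := x)).mpr hzx
  have hn := T.nat z hY
  have h1 : θ (topOf (twT N z)) (twT N z) ≤ hcan (unnat N) (th1 θ) z := by
    rw [hh]
    rcases Nat.eq_zero_or_pos (θ (topOf (twT N z)) (twT N z)) with h0 | h0
    · rw [h0]; exact Nat.zero_le _
    · exact (hB (topOf (twT N z))).step (twT N z) hn rfl h0 _ le_rfl hn x hx hcov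
        (not_le_of_gt hcov.1)
  have h2 := W.tw_cost hY h1
  rw [cst_ct (i := 7) (rfl : hcan (unnat N) (th1 θ) z = hcan (unnat N) (th1 θ) z)]
  rw [ct_congr_up fun w => (T.up z hY w)] at h2
  exact h2

end Pool.Agent.GaussPoset.W7
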