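import Pool.Agent.W_448w7p_h53.GgB
import Pool.Agent.W_448w7_h76.VaA
import Pool.Agent.W_448w7_h15.WnA

/-!
**The energy 31** at level 14, window 7: no strip `La7` has two elements of level 15 below its last
two cells (MP_448cb3_co, S7, `j = 14`).  helper53.
-/

namespace Pool.Agent.GaussPoset.W7

set_option linter.unusedSectionVars false

open Polynomial Finset Fi Cl

universe u

variable {P : Type u} [Fintype P] [PartialOrder P] [DecidableEq P]
variable {r : ℕ} {N : Tops P → Finset P} {b : Tops P → ℕ} {θ : Tops P → P → ℕ}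

/-- the facts used at the energy 31 -/
structure In31 (N : Tops P → Finset P) (b : Tops P → ℕ) (θ : Tops P → P → ℕ) : Prop where
  sp : ∀ c, Ank 31 N θ c → Sp 7 31 (r2 (2 * 7) N) (th2 N θ) (topOf c) c (Dn 31 N c)
  c16 : ∀ c z, Ank 31 N θ c → z ∈ bdR (r2 (2 * 7) N) → z ⋖ c → C16 31 N θ c z
  one : ∀ t, 1 ≤ b t
  pole : ∀ (t : Tops P) (lo hi : ℕ → ℕ) (e : ℕ → ℕ → P) (A : Finset P) (c c' : P),
    LaD 31 N (θ t) t lo hi e A → JB e A c c' → ∀ f : Polynomial (PowerSeries ℤ),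
    (∀ n, exq n f = Z {y : P // y ∈ N t} 7 n) → Dd.Pl 31 2 (-1) f
  ja : ∀ (t : Tops P) (lo hi : ℕ → ℕ) (e : ℕ → ℕ → P) (A : Finset P) (c : P),
    LaD 31 N (θ t) t lo hi e A → JA e A c → ∃ θ' B', Sg.LocL 7 2 51 (N t) θ' B'

lemma le_Uu_right {i : ℕ} {h : P → ℕ} {z z' : P} : cst i h z' ≤ Uu i h z z' := by
  unfold cst Uu
  exact Finset.sum_le_sum fun w _ => le_max_right _ _

/-- the anchors are natural elements with the threshold one -/
lemma Ank.nat (W : WL r 31 N b θ) {c : P} (hc : Ank 31 N θ c) :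
    c ∉ unnat N ∧ θ (topOf c) c = 1 ∧ lev c = 15 := by
  obtain ⟨lo, hi, e, A, L, hcA, hcm⟩ := hc
  have h1 : c ∈ N (topOf c) := by
    rw [L.nat]
    exact mem_union_right _ hcA
  exact ⟨(W.natSys.mem_iff.mp h1).1, L.dat.th.c34 c hcA hcm, hcm.1⟩

/-- the boundary elements of small cost -/
theorem In31.low (I : In31 N b θ) (W : WL r 31 N b θ) (J : JH P) {z : P}
    (hz : z ∈ bdR (r2 (2 * 7) N)) : 32 ≤ cst 7 (h2 (2 * 7) N θ) z ∨
      (∃ c, Ank 31 N θ c ∧ Pend z c ∧ lev z = 16 ∧ h2 (2 * 7) N θ z = 2 ∧ ct 7 2 z = 30 ∧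
        ct 7 3 z = 42) := by
  classical
  have hzR := (mem_filter.mp hz).1
  rcases W.bd hz with h | h | ⟨h1, h4, c, hc, hzc⟩
  · left
    rcases W.rows J hzR h with ⟨t, lo, hi, e, A, L, hm⟩ | ⟨x, x', hx, hx', ht, hzx, hzx'⟩ | h1
    · rw [(W.p0_num L hm hzR).2.1]
      norm_num
    · rw [(W.fb_num hx hx' ht hzx hzx').2.2.1]
      norm_num
    · omega
  · left
    omega
  · have e1 : cst 7 (h2 (2 * 7) N θ) z = ct 7 2 z := cst_ct h4
    rw [e1]
    rcases I.c16 c z hc hz hzc with ⟨g1, g2, g3⟩ | ⟨d, g1, g2, g3, g4, g5, g6, g7, g8⟩ |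
      ⟨g0, d, g1, g2, g3, g4, g5, g6⟩ | ⟨p, g1, g2, g3, g4, g5⟩ |
      ⟨v, g1, g2, g3, g4, g5, g6, g7, g8⟩ | g1
    · exact Or.inr ⟨c, hc, ⟨hzc, g1⟩, h1, h4, g2, g3⟩
    · left; omega
    · left; omega
    · left; omega
    · left
      have hlv := (W.gt.H.covBy_iff.mp g1).2
      have h5 := ct_succ 7 2 v
      omega
    · left; omega

/-- the boundary elements of small cost, without twins -/
theorem In31.low' (I : In31 N b θ) (W : WL r 31 N b θ) (J : JH P) {z : P}
    (hz : z ∈ bdR (unnat N)) : 32 ≤ cst 7 (hcan (unnat N) (th1 θ)) z ∨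
      (∃ c, Ank 31 N θ c ∧ Pend z c ∧ lev z = 16 ∧ hcan (unnat N) (th1 θ) z = 2 ∧
        ct 7 2 z = 30) := by
  classical
  rcases bd_cases (θ := θ) hz with hY | ⟨h1, h4⟩
  · exact Or.inl (W.tw_lab hz hY)
  · rcases I.low W J h1 with h5 | ⟨c, hc, hp, hl, h6, h7, h8⟩
    · left
      rw [cst_ct (i := 7) (rfl : h2 (2 * 7) N θ z = h2 (2 * 7) N θ z)] at h5
      rw [cst_ct (i := 7) (rfl : hcan (unnat N) (th1 θ) z = hcan (unnat N) (th1 θ) z)]
      exact h5.trans (ct_mono (i := 7) le_rfl h4)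
    · right
      refine ⟨c, hc, hp, hl, le_antisymm ?_ (by omega), h7⟩
      obtain ⟨h9, h10, -⟩ := hc.nat W
      have := hcan_le (θ := th1 θ) h9 hp.1
      have e1 : th1 θ c = 1 := h10
      omega

/-- the pendants of the anchor `c` -/
noncomputable def fam31 (N : Tops P → Finset P) (c : P) : Finset P := by
  classical exact (bdR (unnat N)).filter (fun z => Pend z c)

lemma mem_fam31 {c z : P} : z ∈ fam31 N c ↔ z ∈ bdR (unnat N) ∧ Pend z c := by
  classical
  unfold fam31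
  rw [mem_filter]

/-- the elements of the families -/
lemma fam_mem (W : WL r 31 N b θ) {c z : P} (hc : Ank 31 N θ c)
    (hz : z ∈ fam31 N c) : z ∈ bdR (r2 (2 * 7) N) ∧ lev z = 16 ∧ h2 (2 * 7) N θ z = 2 ∧
      hcan (unnat N) (th1 θ) z = 2 := by
  classical
  obtain ⟨hz1, hp⟩ := mem_fam31.mp hz
  obtain ⟨h9, h10, h11⟩ := hc.nat W
  have hl : lev z = 16 := by
    have := (W.gt.H.covBy_iff.mp hp.1).2
    omega
  have hzb : z ∈ bdR (r2 (2 * 7) N) := by
    rcases bd_cases (θ := θ) hz1 with hY | ⟨h1, -⟩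
    · have := (mem_twY.mp hY).2.1
      omega
    · exact h1
  refine ⟨hzb, hl, ?_, ?_⟩
  · obtain ⟨x, hx, hzx, hh⟩ := hcan_spec (θ := th2 N θ) hzb
    have hxc := hp.2 x hzx
    subst hxc
    rw [h2_eq, hh]
    have hxY : x ∉ twY (2 * 7) N := fun h => h9 (mem_twY.mp h).1
    show th2 N θ x + 1 = 2
    unfold th2
    rw [thX_not hxY, h10]
  · obtain ⟨x, hx, hzx, hh⟩ := hcan_spec (θ := th1 θ) hz1
    have hxc := hp.2 x hzx
    subst hxc
    rw [hh]
    show θ (topOf x) x + 1 = 2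
    rw [h10]

/-- the families are clean -/
theorem In31.fam_dvd (I : In31 N b θ) (W : WL r 31 N b θ) (J : JH P) {c : P}
    (hc : Ank 31 N θ c) : (1 + X : ℤ[X]) ^ (lv P 7).card ∣
      ZF 7 (hcan (unnat N) (th1 θ)) (fam31 N c) 31 := by
  classical
  obtain ⟨h9, h10, h11⟩ := hc.nat W
  have S := I.sp c hc
  have hcY : c ∉ twY (2 * 7) N := fun h => h9 (mem_twY.mp h).1
  have hthc : th2 N θ c = 1 := by
    unfold th2
    rw [thX_not hcY, h10]
  have hc2 : ∀ z ∈ fam31 N c, ct 7 2 z = 30 ∧ ct 7 3 z = 42 := by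
    intro z hz
    obtain ⟨g1, g2, g3, g4⟩ := fam_mem W hc hz
    have hp := (mem_fam31.mp hz).2
    rcases I.c16 c z hc g1 hp.1 with ⟨k1, k2, k3⟩ | ⟨d, k1, k2, k3, k4, -⟩ |
      ⟨-, d, k1, k2, k3, k4, -⟩ | ⟨p, k1, k2, k3, k4, k5⟩ | ⟨v, k1, k2, k3, k4, -⟩ | k1
    · exact ⟨k2, k3⟩
    · exact absurd (hp.2 d k4) k3
    · exact absurd (hp.2 d k4) k3
    · exfalso
      have h12 := hp.2 p k4
      subst h12
      exact h9 (mem_sdiff.mp (mem_filter.mp k2).1).1
    · exact absurd (congrArg topOf (hp.2 v k1)) k4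
    · exfalso
      rcases I.low W J g1 with h5 | ⟨c', hc', hp', -, -, h7, h8⟩
      · have h13 : ct 7 2 z = ct 7 2 c + 2 := by
          have e1 := ct_pend (i := 7) (k := 2) hp
          rw [g2] at e1
          norm_num at e1
          omega
        have h14 := S.cct
        omega
      · omega
  have key := S.fam (A := fam31 N c) (n := 31) (p := fun _ => False) (k := fun _ => 0)
    (fun d hd => by
      unfold Dn at hd
      rw [if_neg (by norm_num)] at hd
      exact absurd hd (Finset.notMem_empty d)) le_rfl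
    (fun z hz => ⟨(fam_mem W hc hz).1, (mem_fam31.mp hz).2.1, (fam_mem W hc hz).2.1⟩)
    (fun z hz x hzx => by
      have hxc := (mem_fam31.mp hz).2.2 x hzx
      subst hxc
      exact ⟨fun h => h9 (mem_sdiff.mp h).1, hthc.ge, fun h => absurd rfl h⟩)
    (fun z hz y hy x hx hxt hyx => by
      obtain ⟨g1, g2, g3, g4⟩ := fam_mem W hc hz
      obtain ⟨g5, g6⟩ := hc2 z hz
      show 31 < ∑ w, max (ez 7 (h2 (2 * 7) N θ) z w) (ez 7 (fun _ => 3) y w)
      by_cases hyz : y = z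
      · subst hyz
        rw [← uni_self g3, g6]
        norm_num
      · have := W.h3 J hc g3 (mem_fam31.mp hz).2.1 g2 (fun u hzu => by
          rw [(mem_fam31.mp hz).2.2 u hzu]
          exact fun h => h9 (mem_sdiff.mp h).1) hy hx hxt hyx hyz
        omega)
    (fun z hz y hy hyA => by
      obtain ⟨g1, g2, g3, g4⟩ := fam_mem W hc hz
      show 31 < Uu 7 (h2 (2 * 7) N θ) z y
      rcases I.low W J hy with h5 | ⟨c', hc', hp', hl', h6, h7, h8⟩
      · exact lt_of_lt_of_le (by omega) (h5.trans le_Uu_right)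
      · have hyz : y ≠ z := by
          rintro rfl
          exact hyA hz
        have hzy : ¬ y ≤ z := by
          intro h
          have := lev_strictAnti (lt_of_le_of_ne h hyz)
          omega
        have h12 := Uu_lt (i := 7) (h := h2 (2 * 7) N θ) hzy (by omega) g3.ge
        rw [cst_ct (i := 7) h6] at h12
        omega)
    (fun z hz => Kd.P (fun y hzy => (mem_fam31.mp hz).2.2 y hzy) (by norm_num)
      (by constructor
          · exact fun h => h.elim
          · intro h; norm_num at h)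
      (fun h => h.elim))
  rw [Finset.filter_false, Finset.sum_empty, sub_zero] at key
  rw [ZF_congr (h' := hcan (r2 (2 * 7) N) (th2 N θ))]
  · exact key
  · intro z hz
    obtain ⟨g1, g2, g3, g4⟩ := fam_mem W hc hz
    rw [g4, ← h2_eq, g3]

/-- the order of a component from its data -/
lemma dvd_of_compL {t : Tops P} {b' n1 : ℕ} {θ' : P → ℕ} {B' : P → Prop} (W : WL r 31 N b θ)
    (H : Dd.CompDataL (unnat N) topOf t 7 b' n1 θ' (fun x => x ∉ unnat N ∧ B' x)) {n : ℕ}
    (hn : n < n1) : (1 + X : ℤ[X]) ^ b' ∣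
      Z {x : {x : P // x ∉ unnat N} // topOf (x : P) = t} 7 n := by
  refine H.clean (unnat N) ⟨W.natSys.lower, Subset.refl _, fun x hx => ?_, fun x hx h => h.1 hx⟩
    inferInstance n hn
  have := W.lt_lev hx
  omega

/-- **The energy 31**: no component has the pattern `JB`. -/
theorem In31.no_JB (I : In31 N b θ) (W : WL r 31 N b θ) (J : JH P) (t : Tops P)
    (lo hi : ℕ → ℕ) (e : ℕ → ℕ → P) (A : Finset P) (L : LaD 31 N (θ t) t lo hi e A) (c c' : P) :
    ¬ JB e A c c' := by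
  classical
  intro hJB
  have HN := W.natSys
  let Q : Tops P → Prop := fun t => ∃ lo hi e A c c', LaD 31 N (θ t) t lo hi e A ∧ JB e A c c'
  let ρ : Tops P → ℤ := fun t => if Q t then -1 else 0
  have hQ : Q t := ⟨lo, hi, e, A, c, c', L, hJB⟩
  obtain ⟨B, hB⟩ := W.compL
  let Fam : Finset (Finset P) := (univ.filter (fun c => Ank 31 N θ c)).image (fam31 N)
  have hFam : ∀ A ∈ Fam, ∃ c, Ank 31 N θ c ∧ A = fam31 N c := by
    intro A hA
    obtain ⟨c, hc, rfl⟩ := mem_image.mp hA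
    exact ⟨c, (mem_filter.mp hc).2, rfl⟩
  refine no_first_pole_fam' (n0 := 31) (i := 7) (by norm_num) W.gt.H.gauss HN.lower
    (fun x hx => by have := W.lt_lev hx; omega) topOf HN.cp b (th1 θ)
    (fun x => x ∉ unnat N ∧ B (topOf x) x) (fun x hx h => h.1 hx) hB I.one W.sum_b Fam
    ?_ ?_ ?_ ?_ ?_ ρ ?_ ?_
  · intro A hA z hz
    obtain ⟨c, hc, rfl⟩ := hFam A hA
    exact (mem_fam31.mp hz).1
  · intro z hz hzF
    rcases I.low' W J hz with h | ⟨c, hc, hp, -⟩
    · omega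
    · exact absurd (mem_fam31.mpr ⟨hz, hp⟩)
        (hzF _ (mem_image_of_mem _ (mem_filter.mpr ⟨mem_univ _, hc⟩)))
  · intro A hA z hz z' hz' hzA
    obtain ⟨c, hc, rfl⟩ := hFam A hA
    show 31 < Uu 7 (hcan (unnat N) (th1 θ)) z z'
    obtain ⟨g1, g2, g3, g4⟩ := fam_mem W hc hz
    rcases I.low' W J hz' with h | ⟨c', hc', hp', hl', h6, h7⟩
    · exact lt_of_lt_of_le (by omega) (h.trans le_Uu_right)
    · have hyz : z' ≠ z := by
        rintro rfl
        exact hzA hz
      have hzy : ¬ z' ≤ z := by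
        intro h
        have := lev_strictAnti (lt_of_le_of_ne h hyz)
        omega
      have h12 := Uu_lt (i := 7) (h := hcan (unnat N) (th1 θ)) hzy (by omega) g4.ge
      rw [cst_ct (i := 7) h6] at h12
      omega
  · intro A hA A' hA' hne z hz hz'
    obtain ⟨c, hc, rfl⟩ := hFam A hA
    obtain ⟨c', hc', rfl⟩ := hFam A' hA'
    refine hne ?_
    rw [(mem_fam31.mp hz').2.2 c (mem_fam31.mp hz).2.1]
  · intro A hA
    obtain ⟨c, hc, rfl⟩ := hFam A hA
    exact I.fam_dvd W J hc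
  · intro k
    by_cases hk : Q k
    · right
      obtain ⟨lo, hi, e, A, c, c', L, hJB⟩ := hk
      intro f hf
      refine ⟨2, ?_⟩
      rw [show ρ k = -1 from if_pos ⟨lo, hi, e, A, c, c', L, hJB⟩]
      refine I.pole k lo hi e A c c' L hJB f fun n => ?_
      rw [hf, ← Z_iso (Sg.isoPart HN k (Subset.refl _) (N k) fun x =>
        ⟨fun h => ⟨h, fun h' => mem_unnat.mp h' k h⟩, fun h => h.1⟩)]
    · left
      refine ⟨if_neg hk, fun n hn => ?_⟩
      have nat : (∃ B', NatTop 7 k (b k) (N k) (θ k) B') → (1 + X : ℤ[X]) ^ b k ∣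
          Z {x : {x : P // x ∉ unnat N} // topOf (x : P) = k} 7 n := fun ⟨B', h⟩ =>
        dvd_of_compL W (F6.compL_of_natTop (B := fun _ => B') h HN 32 fun _ _ => Iff.rfl)
          (by omega)
      have loc : ∀ θ' B', Sg.LocL 7 2 51 (N k) θ' B' → b k = 2 → (1 + X : ℤ[X]) ^ b k ∣
          Z {x : {x : P // x ∉ unnat N} // topOf (x : P) = k} 7 n := fun θ' B' h hb => by
        rw [hb]
        refine dvd_of_compL (n1 := 51) (B' := B') W
          (h.data HN θ' (fun x => x ∉ unnat N ∧ B' x) (fun _ _ => rfl) fun x hx => ?_) (by omega)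
        exact ⟨fun h => h.2, fun h => ⟨(HN.mem_iff.mp hx).1, h⟩⟩
      have hgr := W.gt.H.gradedBelow
      rcases W.tc k with ⟨h1, h2, h3, h5, h6, h8, h9⟩ | ⟨Nc, co, h0, h1, h2, h3⟩ |
        ⟨Nc, co, h0, h1, h2, h3, h4⟩ | ⟨h, hb⟩ | ⟨lo, hi, e, A, h, hb⟩ | ⟨h1, h2, h3, h4⟩
      · refine nat ?_
        rw [h1, h2, h3]
        exact ⟨_, natTop_light hgr (fun x hx hxi => h5 x hx (by omega)) h6⟩
      · refine nat ?_
        rw [h1, h2]
        exact ⟨_, h0.natTop hgr (by omega)⟩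
      · refine nat ?_
        rw [h1, h2, h3]
        exact ⟨_, h0.natTop hgr (by omega) (by omega)⟩
      · obtain ⟨B', h1⟩ := h.h1
        exact loc _ B' h1 hb
      · rcases h.dat.pat with ⟨c, hJ⟩ | ⟨-, c, c', hJ⟩
        · obtain ⟨θ', B', h1⟩ := I.ja k lo hi e A c h hJ
          exact loc θ' B' h1 hb
        · exact absurd ⟨lo, hi, e, A, c, c', h, hJ⟩ hk
      · exact nat h2
  · have h1 : ∀ t, ρ t ≤ 0 := by
      intro t
      show (if Q t then (-1 : ℤ) else 0) ≤ 0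
      split_ifs <;> norm_num
    have h4 : ρ t = -1 := if_pos hQ
    have h5 : ∑ t, ρ t ≤ ρ t := by
      rw [← Finset.add_sum_erase univ ρ (mem_univ t)]
      have := Finset.sum_nonpos (s := univ.erase t) fun t' _ => h1 t'
      omega
    omega

/-- every strip has the pattern `JA` -/
theorem In31.all_JA (I : In31 N b θ) (W : WL r 31 N b θ) (J : JH P) (t : Tops P)
    (lo hi : ℕ → ℕ) (e : ℕ → ℕ → P) (A : Finset P) (L : LaD 31 N (θ t) t lo hi e A) :
    ∃ c, JA e A c := by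
  rcases L.dat.pat with h | ⟨-, c, c', h⟩
  · exact h
  · exact absurd h (I.no_JB W J t lo hi e A L c c')

end Pool.Agent.GaussPoset.W7
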